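import Pool.Agent.H56.G3.TR

/-!
# Theorem (G), section 3b, RA: a near optimal sum whose atoms are all seen by the residual
-/

set_option autoImplicit false

namespace Pool.Agent.H36.G3

open Finset Pool.Agent.H6.N4D Pool.Agent.H93.EB Pool.Agent.H93.GS Pool.Agent.H56.G3

theorem norm_ee (x : ℝ) : ‖ee x‖ = 1 := by
  unfold ee
  exact Complex.norm_exp_ofReal_mul_I _

theorem conj_ee (x : ℝ) : (starRingEnd ℂ) (ee x) = ee (-x) := by
  unfold ee
  rw [← Complex.exp_conj, map_mul, Complex.conj_I, Complex.conj_ofReal]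
  congr 1
  push_cast
  ring

theorem ar_one (N n : ℕ) (F : ℕ → ℝ) : ar 1 N n F = (∑ m ∈ Ioc n (n + N), F m) / N := by
  unfold ar
  have h : (Ioc n (n + N)).filter (fun m => 1 ∣ m) = Ioc n (n + N) :=
    filter_true_of_mem fun m _ => one_dvd m
  rw [h, Nat.cast_one, mul_one]

/-- the mean of the product with the conjugate of a sum -/
theorem mean_conj (N n : ℕ) (F : ℕ → ℂ) (g : Ex) :
    (∑ m ∈ Ioc n (n + N), F m * (starRingEnd ℂ) (g.f m)) / N =
      ∑ i ∈ range g.k, (starRingEnd ℂ) (g.c i) * cf N n F (g.a i) := by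
  have h1 : ∀ m, F m * (starRingEnd ℂ) (g.f m) =
      ∑ i ∈ range g.k, (starRingEnd ℂ) (g.c i) * (F m * ee (-(g.a i * m))) := by
    intro m
    unfold Ex.f
    rw [map_sum, mul_sum]
    refine sum_congr rfl fun i _ => ?_
    rw [map_mul, conj_ee]
    ring
  rw [sum_congr rfl fun m _ => h1 m, sum_comm, sum_div]
  refine sum_congr rfl fun i _ => ?_
  unfold cf
  rw [← mul_sum, mul_div_assoc]

theorem norm_f_le (g : Ex) (m : ℕ) : ‖g.f m‖ ≤ g.nm := by
  unfold Ex.f Ex.nm
  refine (norm_sum_le _ _).trans (sum_le_sum fun i _ => ?_)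
  rw [norm_mul, norm_ee, mul_one]

theorem mean_le {N n : ℕ} (hN : 1 ≤ N) {F : ℕ → ℝ} {B : ℝ} (h : ∀ m ∈ Ioc n (n + N), F m ≤ B) :
    (∑ m ∈ Ioc n (n + N), F m) / N ≤ B := by
  have hN0 : (0 : ℝ) < N := by exact_mod_cast hN
  rw [div_le_iff₀ hN0]
  refine (sum_le_sum h).trans (le_of_eq ?_)
  rw [sum_const, Nat.card_Ioc, Nat.add_sub_cancel_left, nsmul_eq_mul, mul_comm]

/-- the change of the functional when a part of the sum is removed -/
theorem J_sub (th : ℝ) (lam : ℕ → ℝ) (N n : ℕ) (g gA gs : Ex) (s m₀ : ℝ)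
    (hf : ∀ m, gs.f m = g.f m - s * gA.f m) (hnm : gs.nm = g.nm - s * m₀) :
    J th lam 1 N n gs = J th lam 1 N n g -
      2 * s * ((∑ m ∈ Ioc n (n + N), ((lam m : ℂ) - g.f m) * (starRingEnd ℂ) (gA.f m)) / N).re -
      s ^ 2 * ((∑ m ∈ Ioc n (n + N), ‖gA.f m‖ ^ 2) / N) + 2 * th * s * m₀ := by
  unfold J
  rw [ar_one, ar_one, hnm]
  have h1 : ∀ m, 2 * lam m * (gs.f m).re - ‖gs.f m‖ ^ 2 =
      (2 * lam m * (g.f m).re - ‖g.f m‖ ^ 2) -
        2 * s * (((lam m : ℂ) - g.f m) * (starRingEnd ℂ) (gA.f m)).re -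
        s ^ 2 * ‖gA.f m‖ ^ 2 := by
    intro m
    rw [hf, ← Complex.normSq_eq_norm_sq, ← Complex.normSq_eq_norm_sq, ← Complex.normSq_eq_norm_sq,
      Complex.normSq_apply, Complex.normSq_apply, Complex.normSq_apply]
    simp only [Complex.sub_re, Complex.sub_im, Complex.mul_re, Complex.mul_im, Complex.ofReal_re,
      Complex.ofReal_im, Complex.conj_re, Complex.conj_im]
    ring
  have h2 : ((∑ m ∈ Ioc n (n + N), ((lam m : ℂ) - g.f m) * (starRingEnd ℂ) (gA.f m)) /
      (N : ℂ)).re = (∑ m ∈ Ioc n (n + N),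
        (((lam m : ℂ) - g.f m) * (starRingEnd ℂ) (gA.f m)).re) / N := by
    rw [Complex.div_natCast_re, Complex.re_sum]
  rw [h2, sum_congr rfl fun m _ => h1 m, sum_sub_distrib, sum_sub_distrib, ← mul_sum, ← mul_sum]
  ring

/-- RA. A near optimal sum whose atoms are all seen by the residual. -/
theorem pf_RA (hRB : T_RB) : T_RA := by
  classical
  intro th δ hth hth1 hδ lam N n hlam hN
  have hN0 : (0 : ℝ) < N := by exact_mod_cast hN
  obtain ⟨hbdd, -, -, hdf0, hex, -, -⟩ := hRB th lam 1 N n hth hlam le_rfl hN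
  set d : ℝ := min (th ^ 2 / 8) (min (δ / 2) 1) with hd
  have hd0 : 0 < d := by
    rw [hd]
    refine lt_min (by positivity) (lt_min (by positivity) one_pos)
  have hd1 : d ≤ th ^ 2 / 8 := min_le_left _ _
  have hd2 : d ≤ δ / 2 := (min_le_right _ _).trans (min_le_left _ _)
  have hd3 : d ≤ 1 := (min_le_right _ _).trans (min_le_right _ _)
  obtain ⟨g, hg1, hg2⟩ := hex d hd0
  set F : ℕ → ℂ := fun m => (lam m : ℂ) - g.f m with hF
  let P : ℕ → Prop := fun i => ‖cf N n F (g.a i)‖ < th / 2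
  let gA : Ex := ⟨g.k, fun i => if P i then g.c i else 0, g.a⟩
  let gs : ℝ → Ex := fun s => ⟨g.k, fun i => g.c i - s * (if P i then g.c i else 0), g.a⟩
  have hfs : ∀ s m, (gs s).f m = g.f m - s * gA.f m := by
    intro s m
    unfold Ex.f
    rw [mul_sum, ← sum_sub_distrib]
    refine sum_congr rfl fun i _ => ?_
    show (g.c i - s * (if P i then g.c i else 0)) * ee (g.a i * m) = g.c i * ee (g.a i * m) -
      s * ((if P i then g.c i else 0) * ee (g.a i * m))
    ring
  have hns : ∀ s : ℝ, 0 ≤ s → s ≤ 1 → (gs s).nm = g.nm - s * gA.nm := by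
    intro s hs0 hs1
    unfold Ex.nm
    rw [mul_sum, ← sum_sub_distrib]
    refine sum_congr rfl fun i _ => ?_
    show ‖g.c i - s * (if P i then g.c i else 0)‖ = ‖g.c i‖ - s * ‖if P i then g.c i else 0‖
    split_ifs
    · have : g.c i - s * g.c i = ((1 - s : ℝ) : ℂ) * g.c i := by
        push_cast
        ring
      rw [this, norm_mul, Complex.norm_real, Real.norm_of_nonneg (by linarith)]
      ring
    · simp
  have hnmA0 : 0 ≤ gA.nm := sum_nonneg fun i _ => norm_nonneg _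
  have hA1 : |((∑ m ∈ Ioc n (n + N), ((lam m : ℂ) - g.f m) * (starRingEnd ℂ) (gA.f m)) /
      (N : ℂ)).re| ≤ gA.nm * (th / 2) := by
    refine (Complex.abs_re_le_norm _).trans ?_
    have h3 := mean_conj N n F gA
    rw [hF] at h3
    rw [h3]
    refine (norm_sum_le _ _).trans ?_
    unfold Ex.nm
    rw [sum_mul]
    refine sum_le_sum fun i _ => ?_
    rw [norm_mul, Complex.norm_conj]
    show ‖if P i then g.c i else 0‖ * ‖cf N n F (g.a i)‖ ≤ ‖if P i then g.c i else 0‖ * (th / 2)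
    split_ifs with h4
    · exact mul_le_mul_of_nonneg_left (le_of_lt h4) (norm_nonneg _)
    · simp
  have hA2 : (∑ m ∈ Ioc n (n + N), ‖gA.f m‖ ^ 2) / N ≤ gA.nm ^ 2 :=
    mean_le hN fun m _ => pow_le_pow_left₀ (norm_nonneg _) (norm_f_le gA m) 2
  have hJs : ∀ s : ℝ, 0 ≤ s → s ≤ 1 → J th lam 1 N n g + s * th * gA.nm - s ^ 2 * gA.nm ^ 2 ≤
      J th lam 1 N n (gs s) := by
    intro s hs0 hs1
    rw [J_sub th lam N n g gA (gs s) s gA.nm (hfs s) (hns s hs0 hs1)]
    have h5 := (abs_le.1 hA1).2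
    have h6 := mul_le_mul_of_nonneg_left h5 hs0
    have h7 := mul_le_mul_of_nonneg_left hA2 (sq_nonneg s)
    nlinarith
  have hEn : ∀ h : Ex, J th lam 1 N n h ≤ En th lam 1 N n := fun h => by
    have := hdf0 h
    unfold df at this
    linarith
  have hgd : En th lam 1 N n - J th lam 1 N n g ≤ d := hg1
  have hkey : ∀ s : ℝ, 0 ≤ s → s ≤ 1 → s * th * gA.nm - s ^ 2 * gA.nm ^ 2 ≤ d := by
    intro s hs0 hs1
    have h8 := hJs s hs0 hs1
    have h9 := hEn (gs s)
    linarith
  have hsmall : gA.nm ≤ 2 * d / th := by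
    rcases le_or_gt gA.nm (th / 2) with h | h
    · have h8 := hkey 1 zero_le_one le_rfl
      rw [le_div_iff₀ hth]
      nlinarith
    · exfalso
      have hm0 : 0 < gA.nm := lt_trans (by positivity) h
      have hs1 : th / (2 * gA.nm) ≤ 1 := by
        rw [div_le_one (by positivity)]
        linarith
      have h8 := hkey (th / (2 * gA.nm)) (by positivity) hs1
      have h9 : th / (2 * gA.nm) * th * gA.nm - (th / (2 * gA.nm)) ^ 2 * gA.nm ^ 2 =
          th ^ 2 / 4 := by
        field_simp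
        ring
      rw [h9] at h8
      have : 0 < th ^ 2 := by positivity
      linarith
  refine ⟨gs 1, F, ?_, ?_, ?_⟩
  · have h8 := hJs 1 zero_le_one le_rfl
    have h9 : gA.nm ^ 2 ≤ d := by
      have h10 : gA.nm ^ 2 ≤ (2 * d / th) ^ 2 := pow_le_pow_left₀ hnmA0 hsmall 2
      have h11 : (2 * d / th) ^ 2 ≤ d := by
        rw [div_pow, div_le_iff₀ (by positivity)]
        nlinarith
      exact h10.trans h11
    have h12 : 0 ≤ th * gA.nm := mul_nonneg hth.le hnmA0
    unfold df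
    nlinarith
  · have h13 : ∀ m, ‖F m‖ ^ 2 = lam m ^ 2 - (2 * lam m * (g.f m).re - ‖g.f m‖ ^ 2) := by
      intro m
      rw [hF, ← Complex.normSq_eq_norm_sq, ← Complex.normSq_eq_norm_sq, Complex.normSq_apply,
        Complex.normSq_apply]
      simp only [Complex.sub_re, Complex.sub_im, Complex.ofReal_re, Complex.ofReal_im]
      ring
    rw [sum_congr rfl fun m _ => h13 m, sum_sub_distrib, sub_div]
    have h14 : (∑ m ∈ Ioc n (n + N), lam m ^ 2) / N ≤ 1 := by
      refine mean_le hN fun m _ => ?_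
      have := hlam m
      rw [← sq_abs]
      nlinarith [abs_nonneg (lam m)]
    have h15 : (∑ m ∈ Ioc n (n + N), (2 * lam m * (g.f m).re - ‖g.f m‖ ^ 2)) / N =
        J th lam 1 N n g + 2 * th * g.nm := by
      unfold J
      rw [ar_one]
      ring
    have h16 : 0 ≤ g.nm := sum_nonneg fun i _ => norm_nonneg _
    have h17 : 0 ≤ 2 * th * g.nm := by positivity
    rw [h15]
    linarith
  · intro i _ hci
    by_contra hlt
    rw [not_le] at hlt
    apply hci
    show g.c i - (1 : ℝ) * (if P i then g.c i else 0) = 0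
    rw [if_pos (show P i from hlt)]
    push_cast
    ring

end Pool.Agent.H36.G3
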